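import Mathlib
import Pool.Agent.W130.HL.Final

/-!
# The lower median eigenvalue of a graph of maximum degree 4 is at least -√3

For a finite simple graph on `n` vertices with adjacency eigenvalues
`lam 1 ≥ lam 2 ≥ ... ≥ lam n`, the median eigenvalues are `lam h`, `lam l` with
`h = ⌊(n+1)/2⌋`, `l = ⌈(n+1)/2⌉`.  Every graph of maximum degree `4` has both median
eigenvalues at least `-√3`.
-/

set_option autoImplicit false

namespace Pool.Agent.Results.MP_46d9e0_co.MedianDegreeFour

variable {V : Type*} [Fintype V] [DecidableEq V]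

/-- The real adjacency matrix of a graph is Hermitian (symmetric). -/
lemma adjHerm (G : SimpleGraph V) [DecidableRel G.Adj] : (G.adjMatrix ℝ).IsHermitian := by
  rw [Matrix.IsHermitian, Matrix.conjTranspose_eq_transpose_of_trivial]
  exact SimpleGraph.transpose_adjMatrix (α := ℝ) G

/-- `lam G k` is the `k`-th largest eigenvalue (`1 ≤ k ≤ n`, counted with multiplicity) of the
adjacency matrix of `G`; the value is `0` by convention when `k` is not in `{1, ..., n}`. -/
noncomputable def lam (G : SimpleGraph V) [DecidableRel G.Adj] (k : ℕ) : ℝ :=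
  if h : 1 ≤ k ∧ k ≤ Fintype.card V then
    (adjHerm G).eigenvalues₀ ⟨k - 1, by omega⟩
  else 0

/-- The position `h = ⌊(n+1)/2⌋` of the upper median eigenvalue. -/
noncomputable def posH (n : ℕ) : ℕ := ⌊((n : ℝ) + 1) / 2⌋₊

/-- The position `l = ⌈(n+1)/2⌉` of the lower median eigenvalue. -/
noncomputable def posL (n : ℕ) : ℕ := ⌈((n : ℝ) + 1) / 2⌉₊

lemma posH_eq (n : ℕ) : posH n = (n + 1) / 2 := by
  unfold posH
  have h : (((n : ℝ) + 1) / 2) = (((n + 1 : ℕ) : ℝ) / ((2 : ℕ) : ℝ)) := by push_cast; ring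
  rw [h, Nat.floor_div_natCast, Nat.floor_natCast]

lemma posL_eq (n : ℕ) : posL n = (n + 2) / 2 := by
  unfold posL
  rcases Nat.even_or_odd' n with ⟨k, hk | hk⟩
  · subst hk
    have h2 : (2 * k + 2) / 2 = k + 1 := by omega
    rw [h2, Nat.ceil_eq_iff (by omega)]
    push_cast
    constructor <;> linarith
  · subst hk
    have h2 : (2 * k + 1 + 2) / 2 = k + 1 := by omega
    rw [h2, Nat.ceil_eq_iff (by omega)]
    push_cast
    constructor <;> linarith

/-- If the eigenvalue in position `k` is below `-√3`, then so are all the later ones. -/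
lemma card_below (G : SimpleGraph V) [DecidableRel G.Adj] (c : ℝ) (k : ℕ)
    (hk : k < Fintype.card V) (h : (adjHerm G).eigenvalues₀ ⟨k, hk⟩ < c) :
    Fintype.card V - k ≤ ((G.adjMatrix ℝ).charpoly.roots.filter (fun x : ℝ => x < c)).card := by
  have hr := (adjHerm G).roots_charpoly_eq_eigenvalues₀
  rw [hr]
  rw [Multiset.filter_map, Multiset.card_map]
  have h1 : (Finset.univ.filter (fun i : Fin (Fintype.card V) => k ≤ i.val)).card =
      Fintype.card V - k := by
    have : (Finset.univ.filter (fun i : Fin (Fintype.card V) => k ≤ i.val)) =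
        Finset.Ici ⟨k, hk⟩ := by
      ext i
      simp [Fin.le_def]
    rw [this, Fin.card_Ici]
  rw [← h1]
  have h2 : (Finset.univ.filter (fun i : Fin (Fintype.card V) => k ≤ i.val)) ⊆
      Finset.univ.filter (fun i : Fin (Fintype.card V) =>
        (RCLike.ofReal ((adjHerm G).eigenvalues₀ i) : ℝ) < c) := by
    intro i hi
    simp only [Finset.mem_filter, Finset.mem_univ, true_and] at hi ⊢
    have h3 := (adjHerm G).eigenvalues₀_antitone (a := ⟨k, hk⟩) (b := i) hi
    have h4 : (RCLike.ofReal ((adjHerm G).eigenvalues₀ i) : ℝ) = (adjHerm G).eigenvalues₀ i := rfl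
    rw [h4]
    linarith
  exact Finset.card_le_card h2

/-- **Mohar's question for `d = 4`, in full.**  For every finite simple graph `G` of maximum
degree `4` both median eigenvalues of `G` are at least `-√3`: with `n` the number of vertices and
`lam G 1 ≥ ... ≥ lam G n` the adjacency eigenvalues, `lam G ⌊(n+1)/2⌋ ≥ -√3` and
`lam G ⌈(n+1)/2⌉ ≥ -√3`. -/
theorem result {V : Type*} [Fintype V] [DecidableEq V] (G : SimpleGraph V) [DecidableRel G.Adj]
    (hd : G.maxDegree = 4) :
    -Real.sqrt 3 ≤ lam G (posH (Fintype.card V)) ∧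
      -Real.sqrt 3 ≤ lam G (posL (Fintype.card V)) := by
  have hne : Nonempty V := by
    by_contra hcon
    rw [not_nonempty_iff] at hcon
    have := SimpleGraph.maxDegree_of_subsingleton G
    omega
  have hn : 0 < Fintype.card V := Fintype.card_pos
  have hpp : IsPrimePow (4 - 1) := Nat.Prime.isPrimePow (by norm_num)
  have hfin := (Pool.Agent.W130.HL.final G 4 hpp hd.le).2
  have h3 : ((4 - 1 : ℕ) : ℝ) = 3 := by norm_num
  rw [h3] at hfin
  have key : ∀ k : ℕ, 1 ≤ k → k ≤ (Fintype.card V + 2) / 2 → -Real.sqrt 3 ≤ lam G k := by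
    intro k hk1 hk
    have hkn : k ≤ Fintype.card V := by omega
    unfold lam
    rw [dif_pos ⟨hk1, hkn⟩]
    by_contra hcon
    push Not at hcon
    have := card_below G (-Real.sqrt 3) (k - 1) (by omega) hcon
    omega
  refine ⟨key _ ?_ ?_, key _ ?_ ?_⟩
  · rw [posH_eq]; omega
  · rw [posH_eq]; omega
  · rw [posL_eq]; omega
  · rw [posL_eq]

end Pool.Agent.Results.MP_46d9e0_co.MedianDegreeFour
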